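import Mathlib
import Pool.Agent.Helper423_Ceer.Space

open Pool.Agent.Helper583.WD Helper423Ceer

/-- Some computable instance of DIAG has no solution computable from `X`, for almost every `X`.
So DIAG is not Weihrauch reducible to a problem `Q` whose computable instances are solved by the
oracles `X` from sets which do not have measure zero; for example to the product of a problem with
computable solutions, such as choice on the natural numbers, with the problem of avoiding a set
`N p` of measure zero, for any assignment `N`, effective or not. -/
theorem Pool.Agent.Results.MP_5e3ef6_lc.NullSolutions.result :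
    (∃ p, Computable p ∧ DIAG.inst p ∧ Null {X | Solves DIAG p X}) ∧
    (∀ Q : Problem, (∀ r, Computable r → Q.inst r → ¬ Null {X | Solves Q r X}) →
      ¬ WLE DIAG Q) ∧
    ∀ P : Problem, (∀ r, Computable r → P.inst r → ∃ q, Computable q ∧ P.sol r q) →
      ∀ N : (ℕ → ℕ) → Set (ℕ → Bool), (∀ p, Null (N p)) → ¬ WLE DIAG (prod P (AV N)) :=
  ⟨⟨nm, comp_nm, inst_nm, null_nm⟩, fun _ h => not_le h, fun _ hP _ hN => not_le_av hP hN⟩
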